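import Mathlib

open Set

namespace Pool.Agent.Results.MP_75e066_al.NotWeaklyNilpotent

/-- A hypergroup structure on `H`: the product of two elements is a subset of `H`. -/
structure Hypergroup (H : Type) where
  /-- the product `pq` -/
  mul : H → H → Set H
  /-- the identity -/
  one : H
  /-- the inverse `s*` -/
  star : H → H
  assoc : ∀ p q r : H, (⋃ x ∈ mul q r, mul p x) = ⋃ x ∈ mul p q, mul x r
  mul_one : ∀ s : H, mul s one = {s}
  star_left : ∀ p q r : H, r ∈ mul p q → q ∈ mul (star p) r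
  star_right : ∀ p q r : H, r ∈ mul p q → p ∈ mul r (star q)

namespace Hypergroup

variable {H : Type} (G : Hypergroup H)

/-- The product of two subsets. -/
def mulSet (P Q : Set H) : Set H := ⋃ p ∈ P, ⋃ q ∈ Q, G.mul p q

/-- `F` is closed: nonempty with `F* F ⊆ F`. -/
def Closed (F : Set H) : Prop := F.Nonempty ∧ G.mulSet (G.star '' F) F ⊆ F

/-- `F` is normal in `E`: `F h ⊆ h F` for all `h ∈ E`. -/
def NormalIn (F E : Set H) : Prop := ∀ h ∈ E, G.mulSet F {h} ⊆ G.mulSet {h} F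

/-- `F` is strongly normal in `E`: `h* F h ⊆ F` for all `h ∈ E`. -/
def StronglyNormalIn (F E : Set H) : Prop :=
  ∀ h ∈ E, G.mulSet (G.mulSet {G.star h} F) {h} ⊆ F

/-- `F` is subnormal in `H`. -/
def Subnormal (F : Set H) : Prop :=
  ∃ (n : ℕ) (C : ℕ → Set H), 1 ≤ n ∧ C 0 = F ∧ C n = Set.univ ∧
    (∀ i ≤ n, G.Closed (C i)) ∧ (∀ i < n, C i ⊆ C (i + 1) ∧ G.NormalIn (C i) (C (i + 1)))

/-- `F` is strongly subnormal in `H`. -/
def StronglySubnormal (F : Set H) : Prop :=
  ∃ (n : ℕ) (C : ℕ → Set H), 1 ≤ n ∧ C 0 = F ∧ C n = Set.univ ∧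
    (∀ i ≤ n, G.Closed (C i)) ∧
    (∀ i < n, C i ⊆ C (i + 1) ∧ G.StronglyNormalIn (C i) (C (i + 1)))

/-- The element `h^F = F h F` of the quotient `H // F`. -/
def cls (F : Set H) (h : H) : Set H := G.mulSet (G.mulSet F {h}) F

/-- The product `a^F · b^F = {x^F : x ∈ a F b}` in the quotient `H // F`. -/
def quotMul (F : Set H) (a b : H) : Set (Set H) := G.cls F '' G.mulSet (G.mulSet {a} F) {b}

/-- `h^F` lies in the centre of `H // F`: it commutes with every `x^F`, and
`(h^F)* · h^F = {1^F}` (with `(h^F)* = (h*)^F`). -/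
def InCentreMod (F : Set H) (h : H) : Prop :=
  (∀ x : H, G.quotMul F h x = G.quotMul F x h) ∧ G.quotMul F (G.star h) h = {G.cls F G.one}

/-- The centre `Z(H)`. -/
def centre : Set H := {h : H | (∀ x : H, G.mul h x = G.mul x h) ∧ G.mul (G.star h) h = {G.one}}

/-- The upper central series. -/
def upper : ℕ → Set H
  | 0 => {G.one}
  | n + 1 => {h : H | G.InCentreMod (upper n) h}

/-- Weak nilpotency. -/
def WeaklyNilpotent : Prop := ∃ n : ℕ, G.upper n = Set.univ

theorem mem_mulSet {P Q : Set H} {r : H} :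
    r ∈ G.mulSet P Q ↔ ∃ p ∈ P, ∃ q ∈ Q, r ∈ G.mul p q := by
  simp [mulSet]

theorem mulSet_singleton (p q : H) : G.mulSet {p} {q} = G.mul p q := by
  ext r; simp [mem_mulSet]

theorem one_mem_star_mul (s : H) : G.one ∈ G.mul (G.star s) s := by
  apply G.star_left s G.one s
  rw [G.mul_one]; rfl

theorem star_star (s : H) : G.star (G.star s) = s := by
  have h1 := G.star_left (G.star s) s G.one (G.one_mem_star_mul s)
  rw [G.mul_one] at h1
  exact h1.symm

theorem one_mul (s : H) : G.mul G.one s = {s} := by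
  have hmem : ∀ s, s ∈ G.mul G.one s := by
    intro s
    -- `1 ∈ s* s`, hence `s* ∈ 1 s*`
    have h1 := G.star_right (G.star (G.star s)) (G.star s) G.one
      (G.one_mem_star_mul (G.star s))
    rwa [G.star_star s] at h1
  have hone : G.star G.one = G.one := by
    have h1 := G.star_left G.one G.one G.one (by rw [G.mul_one]; rfl)
    rw [G.mul_one] at h1
    exact h1.symm
  ext r
  constructor
  · intro hr
    have h1 := G.star_right G.one s r hr
    -- `1 ∈ r s*`
    have h2 := G.star_left r (G.star s) G.one h1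
    rw [G.mul_one] at h2
    have h3 : G.star s = G.star r := h2
    have h4 := congrArg G.star h3
    rw [G.star_star, G.star_star] at h4
    exact h4.symm
  · rintro rfl
    exact hmem r

theorem cls_one (s : H) : G.cls {G.one} s = {s} := by
  unfold cls
  rw [mulSet_singleton, G.one_mul, mulSet_singleton, G.mul_one]

theorem quotMul_one (a b : H) : G.quotMul {G.one} a b = (fun x : H => ({x} : Set H)) '' G.mul a b := by
  unfold quotMul
  rw [mulSet_singleton, G.mul_one, mulSet_singleton]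
  exact Set.image_congr fun x _ => G.cls_one x

/-- If the centre is trivial then so are all terms of the upper central series. -/
theorem upper_eq_of_centre (h : G.centre = {G.one}) (n : ℕ) : G.upper n = {G.one} := by
  induction n with
  | zero => rfl
  | succ n ih =>
    rw [← h]
    ext x
    have hinj : Function.Injective (fun x : H => ({x} : Set H)) := Set.singleton_injective
    show G.InCentreMod (G.upper n) x ↔ _
    rw [ih]
    unfold InCentreMod centre
    simp only [quotMul_one, Set.mem_ofPred_eq, cls_one]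
    constructor
    · rintro ⟨h1, h2⟩
      refine ⟨fun y => hinj.image_injective (h1 y), hinj.image_injective ?_⟩
      rw [h2, Set.image_singleton]
    · rintro ⟨h1, h2⟩
      refine ⟨fun y => by rw [h1 y], ?_⟩
      rw [h2, Set.image_singleton]

/-- Strong normality implies normality. -/
theorem StronglyNormalIn.normalIn {F E : Set H} (h : G.StronglyNormalIn F E) :
    G.NormalIn F E := by
  intro x hx r hr
  rw [mem_mulSet] at hr
  obtain ⟨f, hf, x', rfl, hr⟩ := hr
  have h1 : r ∈ ⋃ y ∈ G.mul x' (G.star x'), G.mul y r := by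
    simp only [Set.mem_iUnion]
    refine ⟨G.one, ?_, by rw [G.one_mul]; rfl⟩
    have := G.one_mem_star_mul (G.star x')
    rwa [G.star_star] at this
  rw [← G.assoc] at h1
  simp only [Set.mem_iUnion] at h1
  obtain ⟨g, hg1, hg2⟩ := h1
  rw [mem_mulSet]
  refine ⟨x', rfl, g, ?_, hg2⟩
  apply h x' hx
  rw [mem_mulSet]
  have h2 : g ∈ ⋃ y ∈ G.mul f x', G.mul (G.star x') y := by
    simp only [Set.mem_iUnion]
    exact ⟨r, hr, hg1⟩
  rw [G.assoc] at h2
  simp only [Set.mem_iUnion] at h2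
  obtain ⟨y, hy1, hy2⟩ := h2
  refine ⟨y, ?_, x', rfl, hy2⟩
  rw [mem_mulSet]
  exact ⟨G.star x', rfl, f, hf, hy1⟩

theorem StronglySubnormal.subnormal {F : Set H} (h : G.StronglySubnormal F) :
    G.Subnormal F := by
  obtain ⟨n, C, h1, h2, h3, h4, h5⟩ := h
  exact ⟨n, C, h1, h2, h3, h4, fun i hi => ⟨(h5 i hi).1, (h5 i hi).2.normalIn⟩⟩

theorem Closed.mul_mem {F : Set H} (h : G.Closed F) {p q r : H} (hp : p ∈ F) (hq : q ∈ F)
    (hr : r ∈ G.mul p q) : r ∈ F := by
  have h1 : G.one ∈ F := h.2 (by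
    rw [mem_mulSet]
    exact ⟨G.star p, ⟨p, hp, rfl⟩, p, hp, G.one_mem_star_mul p⟩)
  have h2 : G.star p ∈ F := h.2 (by
    rw [mem_mulSet]
    exact ⟨G.star p, ⟨p, hp, rfl⟩, G.one, h1, by rw [G.mul_one]; rfl⟩)
  apply h.2
  rw [mem_mulSet]
  exact ⟨p, ⟨G.star p, h2, G.star_star p⟩, q, hq, hr⟩

end Hypergroup

/-! ### The example -/

/-- The normal part, an elementary abelian group of order 9. -/
abbrev N : Type := ZMod 3 × ZMod 3

/-- The indices of the other cosets. -/
abbrev K : Type := {k : ZMod 5 // k ≠ 0}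

/-- The 21-element set: `N` and four cosets of three elements each. -/
abbrev E : Type := N ⊕ (K × ZMod 3)

/-- Four linear functionals on `N` with pairwise different kernels. -/
def mu (k : ZMod 5) (v : N) : ZMod 3 :=
  if k = 1 then v.2 else if k = 2 then v.1 - v.2 else if k = 3 then v.1 + v.2 else v.1

theorem mu_add (k : ZMod 5) (v w : N) : mu k (v + w) = mu k v + mu k w := by
  unfold mu
  split_ifs <;> simp <;> ring

theorem mu_neg (k : ZMod 5) (v : N) : mu k (-v) = - mu k v := by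
  unfold mu
  split_ifs <;> simp <;> ring

theorem mu_two : ∀ k k' : ZMod 5, k ≠ 0 → k' ≠ 0 → k ≠ k' → ∀ a b : ZMod 3,
    ∃ v : N, mu k v = a ∧ mu k' v = b := by
  decide

theorem mu_surj (k : ZMod 5) (a : ZMod 3) : ∃ v : N, mu k v = a := by
  revert k a
  decide

/-- The product, as a ternary relation: `rel p q r` means `r ∈ pq`. -/
def rel : E → E → E → Prop
  | .inl n, .inl m, .inl r => r = n + m
  | .inl n, .inr c, .inr d => d.1 = c.1 ∧ d.2 = c.2 + mu c.1 n
  | .inr c, .inl n, .inr d => d.1 = c.1 ∧ d.2 = c.2 + mu (-c.1) n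
  | .inr c, .inr d, .inl n => (c.1 : ZMod 5) + d.1 = 0 ∧ mu c.1 n = c.2 + d.2
  | .inr c, .inr d, .inr e => (e.1 : ZMod 5) = c.1 + d.1
  | _, _, _ => False

/-- The inverse. -/
def st : E → E
  | .inl n => .inl (-n)
  | .inr c => .inr (⟨-c.1, neg_ne_zero.mpr c.1.2⟩, -c.2)

theorem rel_assoc' (p q r x : E) :
    (∃ y, rel p q y ∧ rel y r x) ↔ (∃ y, rel q r y ∧ rel p y x) := by
  rcases p with n | ⟨⟨k, hk⟩, t⟩ <;> rcases q with n' | ⟨⟨k', hk'⟩, t'⟩ <;>
  rcases r with n'' | ⟨⟨k'', hk''⟩, t''⟩ <;> rcases x with m | ⟨⟨l, hl⟩, s⟩ <;>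
  simp only [Sum.exists, rel, false_and, and_false, exists_false, or_false, false_or, Subtype.mk.injEq]
  · simp only [exists_eq_left]
    rw [add_assoc]
  · constructor
    · rintro ⟨a, rfl, rfl, rfl⟩
      exact ⟨(⟨l, hk''⟩, t'' + mu l n'), ⟨rfl, rfl⟩, rfl, by rw [mu_add]; ring⟩
    · rintro ⟨⟨⟨b, hb⟩, c⟩, ⟨h1, h2⟩, h3, h4⟩
      simp only [Subtype.mk.injEq] at h1 h2 h3 h4
      subst h1
      exact ⟨_, rfl, h3, by rw [h4, h2, mu_add]; ring⟩
  · constructor
    · rintro ⟨⟨⟨b, hb⟩, c⟩, ⟨h1, h2⟩, h3, h4⟩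
      simp only [Subtype.mk.injEq] at h1 h2 h3 h4
      subst h1
      exact ⟨(⟨b, hb⟩, t' + mu (-b) n''), ⟨rfl, rfl⟩, Subtype.ext h3, by simp only; rw [h4, h2]; ring⟩
    · rintro ⟨⟨⟨b, hb⟩, c⟩, ⟨h1, h2⟩, h3, h4⟩
      simp only [Subtype.mk.injEq] at h1 h2 h3 h4
      subst h1
      exact ⟨(⟨b, hb⟩, t' + mu b n), ⟨rfl, rfl⟩, Subtype.ext h3, by simp only; rw [h4, h2]; ring⟩
  · constructor
    · rintro ⟨⟨⟨b, hb⟩, c⟩, ⟨h1, h2⟩, h3, h4⟩
      simp only [Subtype.mk.injEq] at h1 h2 h3 h4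
      subst h1
      refine ⟨m - n, ⟨h3, ?_⟩, by abel⟩
      rw [sub_eq_add_neg, mu_add, mu_neg, h4, h2]; ring
    · rintro ⟨a, ⟨h1, h2⟩, rfl⟩
      refine ⟨(⟨k', hk'⟩, t' + mu k' n), ⟨rfl, rfl⟩, h1, ?_⟩
      simp only
      rw [mu_add, h2]; ring
  · constructor
    · rintro ⟨⟨⟨b, hb⟩, c⟩, ⟨h1, h2⟩, h3⟩
      simp only [Subtype.mk.injEq] at h1 h2 h3
      subst h1
      exact ⟨(⟨l, hl⟩, s - mu l n), h3, rfl, by simp⟩
    · rintro ⟨⟨⟨b, hb⟩, c⟩, h1, h2, h3⟩
      simp only [Subtype.mk.injEq] at h1 h2 h3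
      subst h2
      exact ⟨(⟨k', hk'⟩, t' + mu k' n), ⟨rfl, rfl⟩, h1⟩
  · constructor
    · rintro ⟨⟨⟨b, hb⟩, c⟩, ⟨h1, h2⟩, h3, h4⟩
      simp only [Subtype.mk.injEq] at h1 h2 h3 h4
      subst h1
      exact ⟨_, rfl, h3, by rw [h4, h2, mu_add]; ring⟩
    · rintro ⟨a, rfl, rfl, rfl⟩
      exact ⟨(⟨l, hl⟩, t + mu (-l) n'), ⟨rfl, rfl⟩, rfl, by rw [mu_add]; ring⟩
  · constructor
    · rintro ⟨⟨⟨b, hb⟩, c⟩, ⟨h1, h2⟩, h3, h4⟩
      simp only [Subtype.mk.injEq] at h1 h2 h3 h4
      subst h1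
      refine ⟨(⟨k'', hk''⟩, t'' + mu k'' n'), ⟨rfl, rfl⟩, h3, ?_⟩
      have : k'' = - b := (neg_eq_of_add_eq_zero_right h3).symm
      simp only
      rw [h4, h2, this]; ring
    · rintro ⟨⟨⟨b, hb⟩, c⟩, ⟨h1, h2⟩, h3, h4⟩
      simp only [Subtype.mk.injEq] at h1 h2 h3 h4
      subst h1
      refine ⟨(⟨k, hk⟩, t + mu (-k) n'), ⟨rfl, rfl⟩, h3, ?_⟩
      have : b = - k := (neg_eq_of_add_eq_zero_right h3).symm
      simp only
      rw [h4, h2, this]; ring
  · constructor
    · rintro ⟨⟨⟨b, hb⟩, c⟩, ⟨h1, h2⟩, h3⟩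
      simp only [Subtype.mk.injEq] at h1 h2 h3
      subst h1
      exact ⟨(⟨k'', hk''⟩, t'' + mu k'' n'), ⟨rfl, rfl⟩, h3⟩
    · rintro ⟨⟨⟨b, hb⟩, c⟩, ⟨h1, h2⟩, h3⟩
      simp only [Subtype.mk.injEq] at h1 h2 h3
      subst h1
      exact ⟨(⟨k, hk⟩, t + mu (-k) n'), ⟨rfl, rfl⟩, h3⟩
  · constructor
    · rintro ⟨a, ⟨h1, h2⟩, rfl⟩
      refine ⟨(⟨k', hk'⟩, t' + mu (-k') n''), ⟨rfl, rfl⟩, h1, ?_⟩
      have : - k' = k := by rw [neg_eq_iff_add_eq_zero, add_comm]; exact h1
      simp only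
      rw [mu_add, h2, this]; ring
    · rintro ⟨⟨⟨b, hb⟩, c⟩, ⟨h1, h2⟩, h3, h4⟩
      simp only [Subtype.mk.injEq] at h1 h2 h3 h4
      subst h1
      have : - b = k := by rw [neg_eq_iff_add_eq_zero, add_comm]; exact h3
      refine ⟨m - n'', ⟨h3, ?_⟩, by abel⟩
      rw [sub_eq_add_neg, mu_add, mu_neg, h4, h2, this]; ring
  · constructor
    · rintro ⟨⟨⟨b, hb⟩, c⟩, h1, h2, h3⟩
      simp only [Subtype.mk.injEq] at h1 h2 h3
      subst h2
      exact ⟨(⟨k', hk'⟩, t' + mu (-k') n''), ⟨rfl, rfl⟩, h1⟩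
    · rintro ⟨⟨⟨b, hb⟩, c⟩, ⟨h1, h2⟩, h3⟩
      simp only [Subtype.mk.injEq] at h1 h2 h3
      subst h1
      exact ⟨(⟨l, hl⟩, s - mu (-l) n''), h3, rfl, by simp⟩
  · constructor
    · rintro ⟨⟨⟨b, hb⟩, c⟩, h1, h2, h3⟩
      simp only at h1 h2 h3
      have h4 : k' + k'' ≠ 0 := by
        intro h
        apply hk
        rw [h1, add_assoc, h, add_zero] at h2
        exact h2
      refine ⟨(⟨k' + k'', h4⟩, mu k m - t), rfl, ?_, by simp⟩
      rw [← add_assoc, ← h1, h2]
    · rintro ⟨⟨⟨b, hb⟩, c⟩, h1, h2, h3⟩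
      simp only at h1 h2 h3
      have h4 : k + k' ≠ 0 := by
        intro h
        apply hk''
        rw [h1, ← add_assoc, h, zero_add] at h2
        exact h2
      refine ⟨(⟨k + k', h4⟩, mu (k + k') m - t''), rfl, ?_, by simp⟩
      simp only
      rw [add_assoc, ← h1, h2]
  · have key : ((∃ a : N, (k + k' = 0 ∧ mu k a = t + t') ∧ l = k'' ∧ s = t'' + mu k'' a) ∨
        (∃ b : K × ZMod 3, (b.1 : ZMod 5) = k + k' ∧ l = (b.1 : ZMod 5) + k'')) ↔
        (l = k + k' + k'' ∧ (k + k' = 0 → k' + k'' = 0 → s = t + t' + t'')) := by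
      constructor
      · rintro (⟨a, ⟨h1, h2⟩, rfl, rfl⟩ | ⟨⟨⟨b, hb⟩, c⟩, h1, h2⟩)
        · refine ⟨by rw [h1, zero_add], fun _ h3 => ?_⟩
          have : l = k := by
            have e1 : k = -k' := by rw [eq_neg_iff_add_eq_zero]; exact h1
            have e2 : l = -k' := by rw [eq_neg_iff_add_eq_zero, add_comm]; exact h3
            rw [e1, e2]
          rw [this, h2]; ring
        · simp only at h1 h2
          subst h1
          exact ⟨h2, fun h => absurd h hb⟩
      · rintro ⟨h1, h2⟩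
        by_cases h3 : k + k' = 0
        · left
          rw [h3, zero_add] at h1
          by_cases h4 : k' + k'' = 0
          · have e0 : k'' = k := by
              have e1 : k = -k' := by rw [eq_neg_iff_add_eq_zero]; exact h3
              have e2 : k'' = -k' := by rw [eq_neg_iff_add_eq_zero, add_comm]; exact h4
              rw [e1, e2]
            obtain ⟨a, ha⟩ := mu_surj k (t + t')
            refine ⟨a, ⟨h3, ha⟩, h1, ?_⟩
            rw [h2 h3 h4, e0, ha]; ring
          · have e0 : k ≠ k'' := by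
              intro h
              apply h4
              rw [← h, add_comm]; exact h3
            obtain ⟨a, ha, ha'⟩ := mu_two k k'' hk hk'' e0 (t + t') (s - t'')
            exact ⟨a, ⟨h3, ha⟩, h1, by rw [ha']; ring⟩
        · right
          exact ⟨(⟨k + k', h3⟩, 0), rfl, h1⟩
    have key' : ((∃ a : N, (k' + k'' = 0 ∧ mu k' a = t' + t'') ∧ l = k ∧ s = t + mu (-k) a) ∨
        (∃ b : K × ZMod 3, (b.1 : ZMod 5) = k' + k'' ∧ l = k + (b.1 : ZMod 5))) ↔
        (l = k + k' + k'' ∧ (k + k' = 0 → k' + k'' = 0 → s = t + t' + t'')) := by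
      constructor
      · rintro (⟨a, ⟨h1, h2⟩, rfl, rfl⟩ | ⟨⟨⟨b, hb⟩, c⟩, h1, h2⟩)
        · refine ⟨by rw [add_assoc, h1, add_zero], fun h3 _ => ?_⟩
          have : - l = k' := by rw [neg_eq_iff_add_eq_zero]; exact h3
          rw [this, h2]; ring
        · simp only at h1 h2
          subst h1
          exact ⟨by rw [h2, add_assoc], fun _ h => absurd h hb⟩
      · rintro ⟨h1, h2⟩
        by_cases h3 : k' + k'' = 0
        · left
          rw [add_assoc, h3, add_zero] at h1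
          by_cases h4 : k + k' = 0
          · have e0 : - k = k' := by rw [neg_eq_iff_add_eq_zero]; exact h4
            obtain ⟨a, ha⟩ := mu_surj k' (t' + t'')
            refine ⟨a, ⟨h3, ha⟩, h1, ?_⟩
            rw [h2 h4 h3, e0, ha]; ring
          · have e0 : k' ≠ - k := by
              intro h
              apply h4
              rw [h]; simp
            obtain ⟨a, ha, ha'⟩ := mu_two k' (-k) hk' (neg_ne_zero.mpr hk) e0 (t' + t'') (s - t)
            exact ⟨a, ⟨h3, ha⟩, h1, by rw [ha']; ring⟩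
        · right
          exact ⟨(⟨k' + k'', h3⟩, 0), rfl, by rw [h1, add_assoc]⟩
    exact key.trans key'.symm

theorem star_left' (p q r : E) (h : rel p q r) : rel (st p) r q := by
  rcases p with n | ⟨⟨k, hk⟩, t⟩ <;> rcases q with n' | ⟨⟨k', hk'⟩, t'⟩ <;>
  rcases r with m | ⟨⟨l, hl⟩, s⟩ <;> simp only [rel, st, Subtype.mk.injEq] at h ⊢
  · rw [h]; abel
  · obtain ⟨rfl, rfl⟩ := h
    exact ⟨rfl, by rw [mu_neg]; ring⟩
  · obtain ⟨rfl, rfl⟩ := h
    exact ⟨by simp, by ring⟩
  · obtain ⟨h1, h2⟩ := h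
    exact ⟨(neg_eq_of_add_eq_zero_right h1).symm, by rw [neg_neg, h2]; ring⟩
  · rw [h]; ring

theorem star_right' (p q r : E) (h : rel p q r) : rel r (st q) p := by
  rcases p with n | ⟨⟨k, hk⟩, t⟩ <;> rcases q with n' | ⟨⟨k', hk'⟩, t'⟩ <;>
  rcases r with m | ⟨⟨l, hl⟩, s⟩ <;> simp only [rel, st, Subtype.mk.injEq] at h ⊢
  · rw [h]; abel
  · obtain ⟨rfl, rfl⟩ := h
    exact ⟨by simp, by ring⟩
  · obtain ⟨rfl, rfl⟩ := h
    exact ⟨rfl, by rw [mu_neg]; ring⟩
  · obtain ⟨h1, h2⟩ := h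
    have : k = - k' := by rw [eq_neg_iff_add_eq_zero]; exact h1
    exact ⟨this, by rw [← this, h2]; ring⟩
  · rw [h]; ring

/-- The 21-element hypergroup. -/
def G : Hypergroup E where
  mul p q := {r | rel p q r}
  one := .inl 0
  star := st
  assoc := by
    intro p q r
    ext x
    simp only [Set.mem_iUnion, Set.mem_ofPred_eq, exists_prop]
    exact (rel_assoc' p q r x).symm
  mul_one := by
    rintro (n | ⟨⟨k, hk⟩, t⟩)
    · ext (m | ⟨⟨k', hk'⟩, t'⟩)
      · simp [rel]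
      · simp [rel]
    · ext (m | ⟨⟨k', hk'⟩, t'⟩)
      · simp [rel]
      · have h0 : ∀ k, mu k (0 : N) = 0 := by decide
        simp [rel, h0]
  star_left := star_left'
  star_right := star_right'

theorem mem_mul (p q r : E) : r ∈ G.mul p q ↔ rel p q r := Iff.rfl

/-- A closed subset with an element outside `N` is everything. -/
theorem closed_eq_univ {F : Set E} (hF : G.Closed F) {c : K × ZMod 3} (hc : Sum.inr c ∈ F) :
    F = Set.univ := by
  obtain ⟨⟨k, hk⟩, t⟩ := c
  -- squares of a coset element fill a coset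
  have h5 : ∀ k : ZMod 5, k ≠ 0 → k + k ≠ 0 := by decide
  have step : ∀ (k : ZMod 5) (hk : k ≠ 0), (∃ t, (Sum.inr (⟨k, hk⟩, t) : E) ∈ F) →
      ∀ s, (Sum.inr (⟨k + k, h5 k hk⟩, s) : E) ∈ F := by
    rintro k hk ⟨t, ht⟩ s
    exact hF.mul_mem G ht ht ((mem_mul _ _ _).mpr (by simp [rel]))
  have s1 := step k hk ⟨t, hc⟩
  have s2 := step (k + k) (h5 k hk) ⟨0, s1 0⟩
  have s3 := step (k + k + (k + k)) (h5 _ (h5 k hk)) ⟨0, s2 0⟩
  have s4 := step (k + k + (k + k) + (k + k + (k + k))) (h5 _ (h5 _ (h5 k hk))) ⟨0, s3 0⟩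
  have hall : ∀ k l : ZMod 5, k ≠ 0 → l ≠ 0 → l = k + k ∨ l = k + k + (k + k) ∨
      l = k + k + (k + k) + (k + k + (k + k)) ∨
      l = k + k + (k + k) + (k + k + (k + k)) + (k + k + (k + k) + (k + k + (k + k))) := by
    decide
  have hinr : ∀ d : K × ZMod 3, (Sum.inr d : E) ∈ F := by
    rintro ⟨⟨l, hl⟩, s⟩
    rcases hall k l hk hl with rfl | rfl | rfl | rfl
    · exact s1 s
    · exact s2 s
    · exact s3 s
    · exact s4 s
  ext (n | d)
  · simp only [Set.mem_univ, iff_true]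
    exact hF.mul_mem G (hinr (⟨k, hk⟩, mu k n)) (hinr (⟨-k, neg_ne_zero.mpr hk⟩, 0))
      ((mem_mul _ _ _).mpr (by simp [rel]))
  · simp only [Set.mem_univ, iff_true]
    exact hinr d

/-- The set `N` as a subset of the hypergroup. -/
def NN : Set E := Set.range Sum.inl

theorem closed_NN : G.Closed NN := by
  refine ⟨⟨Sum.inl 0, 0, rfl⟩, ?_⟩
  intro r hr
  rw [Hypergroup.mem_mulSet] at hr
  obtain ⟨_, ⟨_, ⟨a, rfl⟩, rfl⟩, _, ⟨b, rfl⟩, hr⟩ := hr
  rcases r with m | d
  · exact ⟨m, rfl⟩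
  · exact absurd hr (by show ¬ rel (st (Sum.inl a)) (Sum.inl b) (Sum.inr d); simp [rel, st])

theorem closed_univ : G.Closed Set.univ := ⟨⟨Sum.inl 0, trivial⟩, Set.subset_univ _⟩

theorem stronglySubnormal {F : Set E} (hF : G.Closed F) : G.StronglySubnormal F := by
  by_cases h : ∃ c : K × ZMod 3, (Sum.inr c : E) ∈ F
  · obtain ⟨c, hc⟩ := h
    have h1 := closed_eq_univ hF hc
    subst h1
    refine ⟨1, fun _ => Set.univ, le_refl _, rfl, rfl, fun _ _ => hF,
      fun _ _ => ⟨subset_rfl, fun _ _ => Set.subset_univ _⟩⟩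
  · push Not at h
    have hFN : F ⊆ NN := by
      rintro (n | c) hx
      · exact ⟨n, rfl⟩
      · exact absurd hx (h c)
    refine ⟨2, fun i => if i = 0 then F else if i = 1 then NN else Set.univ, by norm_num, by simp,
      by simp, ?_, ?_⟩
    · intro i hi
      interval_cases i
      · simpa using hF
      · simpa using closed_NN
      · simpa using closed_univ
    · intro i hi
      interval_cases i
      · simp only [if_true, zero_add, one_ne_zero, if_false]
        refine ⟨hFN, ?_⟩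
        rintro _ ⟨a, rfl⟩ r hr
        rw [Hypergroup.mem_mulSet] at hr
        obtain ⟨y, hy, _, rfl, hr⟩ := hr
        rw [Hypergroup.mem_mulSet] at hy
        obtain ⟨_, rfl, f, hf, hy⟩ := hy
        obtain ⟨b, rfl⟩ := hFN hf
        rcases y with y | y
        · rcases r with r | r
          · have e1 : y = -a + b := hy
            have e2 : r = y + a := hr
            have e3 : r = b := by rw [e2, e1]; abel
            rw [e3]; exact hf
          · exact absurd hr (by show ¬ rel (Sum.inl y) (Sum.inl a) (Sum.inr r); simp [rel])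
        · exact absurd hy (by show ¬ rel (st (Sum.inl a)) (Sum.inl b) (Sum.inr y); simp [rel, st])
      · refine ⟨by simp, ?_⟩
        simp only [one_ne_zero, if_false, if_true]
        intro a _ r hr
        rw [Hypergroup.mem_mulSet] at hr
        obtain ⟨y, hy, a', ha', hr⟩ := hr
        rw [Set.mem_singleton_iff] at ha'
        rw [ha'] at hr
        rw [Hypergroup.mem_mulSet] at hy
        obtain ⟨_, rfl, _, ⟨b, rfl⟩, hy⟩ := hy
        rcases r with r | r
        · exact ⟨r, rfl⟩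
        · exfalso
          rw [mem_mul] at hr hy
          change rel (st a) (Sum.inl b) y at hy
          rcases a with a | ⟨⟨k, hk⟩, t⟩ <;> rcases y with y | ⟨⟨l, hl⟩, s⟩ <;>
            simp only [rel, st, Subtype.mk.injEq] at hr hy
          obtain ⟨⟨m, hm⟩, w⟩ := r
          simp only at hr
          apply hm
          rw [hr, hy.1]; simp

theorem centre_eq : G.centre = {G.one} := by
  ext x
  constructor
  · rintro ⟨h1, h2⟩
    rcases x with n | ⟨⟨k, hk⟩, t⟩
    · have h3 : ∀ k : ZMod 5, k ≠ 0 → mu k n = mu (-k) n := by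
        intro k hk
        have h4 : (Sum.inr (⟨k, hk⟩, mu k n) : E) ∈ G.mul (Sum.inl n) (Sum.inr (⟨k, hk⟩, 0)) := by
          rw [mem_mul]; simp [rel]
        rw [h1, mem_mul] at h4
        simpa [rel] using h4
      have h5 : ∀ n : N, (∀ k : ZMod 5, k ≠ 0 → mu k n = mu (-k) n) → n = 0 := by decide
      rw [h5 n h3]
      rfl
    · exfalso
      obtain ⟨v, hv, hv'⟩ : ∃ v : N, mu (-k) v = 0 ∧ v ≠ 0 := by
        have : ∀ k : ZMod 5, ∃ v : N, mu (-k) v = 0 ∧ v ≠ 0 := by decide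
        exact this k
      have h3 : (Sum.inl v : E) ∈ G.mul (G.star (Sum.inr (⟨k, hk⟩, t))) (Sum.inr (⟨k, hk⟩, t)) := by
        rw [mem_mul]
        show rel (st (Sum.inr (⟨k, hk⟩, t))) (Sum.inr (⟨k, hk⟩, t)) (Sum.inl v)
        simp [rel, st, hv]
      rw [h2] at h3
      have h4 : (Sum.inl v : E) = Sum.inl 0 := h3
      exact hv' (Sum.inl_injective h4)
  · rintro rfl
    refine ⟨fun x => ?_, ?_⟩
    · rw [G.one_mul, G.mul_one]
    · ext y
      have := G.one_mem_star_mul G.one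
      have h6 : G.star G.one = G.one := by
        show st (Sum.inl 0) = Sum.inl 0
        simp [st]
      rw [h6, G.mul_one]

/-- There is a finite hypergroup with 21 elements, all of whose closed subsets are strongly
subnormal (in particular subnormal), which is not weakly nilpotent: all terms of its upper central
series are trivial. -/
theorem result : ∃ (H : Type) (_ : Fintype H) (G : Hypergroup H), Fintype.card H = 21 ∧
    (∀ F : Set H, G.Closed F → G.StronglySubnormal F) ∧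
    (∀ F : Set H, G.Closed F → G.Subnormal F) ∧
    (∀ n : ℕ, G.upper n = {G.one}) ∧ ¬ G.WeaklyNilpotent := by
  refine ⟨E, inferInstance, G, by decide, fun F hF => stronglySubnormal hF,
    fun F hF => (stronglySubnormal hF).subnormal, fun n => G.upper_eq_of_centre centre_eq n, ?_⟩
  rintro ⟨n, hn⟩
  rw [G.upper_eq_of_centre centre_eq n] at hn
  have h1 : (Sum.inr (⟨1, by decide⟩, 0) : E) ∈ ({G.one} : Set E) := by
    rw [hn]; trivial
  have h2 : (Sum.inr (⟨1, by decide⟩, 0) : E) = Sum.inl 0 := h1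
  exact absurd h2 (by simp)

end Pool.Agent.Results.MP_75e066_al.NotWeaklyNilpotent
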